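import Mathlib
import Pool.Agent.X26.GP.Sg

/-!
# The lower bound of the predicted order for all patterns in a common generalised progression

Let `m, k ≥ 1`. For a positive proportion of the vectors `d ∈ [1, D] ^ m`, where `D` is any number between a power
of `log X` and `X`, ALL the patterns `{∑ f_i d_i : f ∈ F}`, `0 ∈ F ⊆ {0, …, k - 1} ^ m`, have `|F|` elements, are
admissible, and the number of the primes `p ≤ X` for which all `p + ∑ f_i d_i`, `f ∈ F`, are prime is at least a
constant times the number predicted by Hardy and Littlewood, for the same `d`. The same holds in every interval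
`(y, y + X]` and for every set of primes of positive relative density in it, all `p + ∑ f_i d_i` being in the set.

Method: a relative multidimensional Szemerédi theorem in windows of length `D` with an enveloping sieve, in which the
counting lemma is applied on the lines `e + s (1, k, …, k ^ (m - 1))` for most `e`, with an arbitrary bounded
function of the parameter `s`.
-/

set_option autoImplicit false

open Finset

namespace Pool.Agent.Results.MP_e87c7d_nt.AllPatternsInBoxes

/-- the number of residue classes modulo `p` occupied by `T` -/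
def nu (T : Finset ℕ) (p : ℕ) : ℕ := (T.image (fun t => t % p)).card

/-- the factor at `p` of the singular series of `T` -/
noncomputable def loc (T : Finset ℕ) (p : ℕ) : ℝ := (1 - (nu T p : ℝ) / p) / (1 - 1 / (p : ℝ)) ^ T.card

/-- the singular series of `T` -/
noncomputable def sing (T : Finset ℕ) : ℝ := ∏' p : Nat.Primes, loc T p

/-- the pattern of the integers `f_1 d_1 + … + f_m d_m`, `f ∈ F` -/
def pat {m : ℕ} (d : Fin m → ℕ) (F : Finset (Fin m → ℕ)) : Finset ℕ := F.image (fun f => ∑ i, f i * d i)

/-- The product `sing T` converges. For all `m`, `k` and `δ > 0` there are `c > 0`, `B` and `X₀` such that for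
all `X ≥ X₀`, all `y`, all `D` with `log ^ B X ≤ D ≤ X` and all sets `A` of at least `δ X / log X` primes
of `(y, y + X]` there is a set `G` of at least `c D ^ m` vectors `d ∈ {1, …, D} ^ m` such that for every `d ∈ G`
and EVERY `F ⊆ {0, …, k - 1} ^ m` with `0 ∈ F` the pattern `{∑ f_i d_i : f ∈ F}` has `|F|` elements and is
admissible, its singular series is positive and at least `c sing X / (log X) ^ |F|` elements `p` of `A` satisfy
`p + ∑ f_i d_i ∈ A` for all `f ∈ F`. -/
theorem result :
    (∀ T : Finset ℕ, HasProd (fun p : Nat.Primes => loc T p) (sing T)) ∧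
    ∀ (m k : ℕ) (δ : ℝ), 0 < δ → ∃ c : ℝ, 0 < c ∧ ∃ B X₀ : ℕ, ∀ X y D : ℕ, X₀ ≤ X →
      Real.log X ^ B ≤ D → D ≤ X → ∀ A : Finset ℕ, A ⊆ Ioc y (y + X) → (∀ p ∈ A, p.Prime) →
      δ * (X / Real.log X) ≤ A.card →
      ∃ G ⊆ Fintype.piFinset (fun _ : Fin m => Icc 1 D), c * (D : ℝ) ^ m ≤ (G.card : ℝ) ∧
        ∀ d ∈ G, ∀ F : Finset (Fin m → ℕ), (∀ f ∈ F, ∀ i, f i < k) → (fun _ => 0) ∈ F →
          (pat d F).card = F.card ∧ (∀ p : ℕ, p.Prime → nu (pat d F) p < p) ∧ 0 < sing (pat d F) ∧
          c * sing (pat d F) * (X / Real.log X ^ F.card) ≤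
            ((A.filter (fun p => ∀ f ∈ F, p + ∑ i, f i * d i ∈ A)).card : ℝ) :=
  ⟨Pool.Agent.X26.DP.SN_hasProd, fun m k _ hδ => Pool.Agent.X26.GP.main m k hδ⟩

end Pool.Agent.Results.MP_e87c7d_nt.AllPatternsInBoxes
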