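import Mathlib
import Pool.Agent.X37.TY.Typ

/-!
# The patterns which occur near almost all primes have the right frequency

Write `L = log x` and `r = k + 1`. For every `k` there is `C > 0` with the following properties.

(1) Let `δ, λ > 0`. For all large `x`, all but at most `C δ λ ^ k x / L` primes `p` of `[x, 2 x)` are such that for
EVERY set `T` of `r` shifts `0 ≤ t ≤ λ L`, `0 ∈ T`, for which all the `p + t`, `t ∈ T`, are prime, the number of the
`n ∈ [x, 2 x)` for which all the `n + t`, `t ∈ T`, are prime is between `δ 𝔖(T) x / L ^ r` and `C 𝔖(T) x / L ^ r`.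

(2) Let `δ > 0`. For all large `x`, all but at most `C δ ^ (1 / r) x / L` primes `p` of `[x, 2 x)` are such that
for the pattern `T` of `p` and the `k` primes following `p` even the number of the `n ∈ [x, 2 x)` for which the
`n + t`, `t ∈ T`, are CONSECUTIVE primes is at least `δ 𝔖(T) x / L ^ r`, and the number of the `n ∈ [x, 2 x)` for
which the `n + t` are prime is at most `C 𝔖(T) x / L ^ r`.

Proof. If the lower bound fails, then `p` is one of fewer than `δ 𝔖(T) x / L ^ r` numbers with the pattern `T`;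
the sum of these bounds over all `T` of diameter at most `M` is estimated with an upper bound of the right order
for the mean value of the singular series over the sets of shifts containing `0`. For (2), `M = δ ^ (-1 / r) L`;
at most `k (x / M + 1)` primes of `[x, 2 x)` have a pattern of larger diameter.
-/

set_option autoImplicit false

open Finset

namespace Pool.Agent.Results.MP_e87c7d_nt.AlmostAllPatterns

/-- the numbers `n + t`, `t ∈ T`, are primes -/
def AllPrime (n : ℕ) (T : Finset ℕ) : Prop := ∀ t ∈ T, (n + t).Prime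

/-- the numbers `n + t`, `t ∈ T`, are consecutive primes: they are prime, and every prime `n + j`
between two of them is one of them -/
def Consecutive (n : ℕ) (T : Finset ℕ) : Prop :=
  (∀ t ∈ T, (n + t).Prime) ∧
    ∀ j : ℕ, (∃ a ∈ T, a ≤ j) → (∃ b ∈ T, j ≤ b) → (n + j).Prime → j ∈ T

open Classical in
/-- the number of `n ∈ [x, 2 x)` for which the `n + t`, `t ∈ T`, are primes -/
noncomputable def count (x : ℕ) (T : Finset ℕ) : ℕ :=
  ((Ico x (2 * x)).filter (fun n => AllPrime n T)).card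

open Classical in
/-- the number of `n ∈ [x, 2 x)` for which the `n + t`, `t ∈ T`, are consecutive primes -/
noncomputable def countCons (x : ℕ) (T : Finset ℕ) : ℕ :=
  ((Ico x (2 * x)).filter (fun n => Consecutive n T)).card

/-- the number of residue classes modulo `p` occupied by `T` -/
def nu (T : Finset ℕ) (p : ℕ) : ℕ := (T.image (· % p)).card

/-- the factor at `p` of the singular series -/
noncomputable def loc (T : Finset ℕ) (p : ℕ) : ℝ :=
  (1 - (nu T p : ℝ) / p) / (1 - 1 / (p : ℝ)) ^ T.card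

/-- the singular series of `T` -/
noncomputable def 𝔖 (T : Finset ℕ) : ℝ := ∏' p : Nat.Primes, loc T p

/-- the order of magnitude predicted by Hardy and Littlewood -/
noncomputable def main (k x : ℕ) (T : Finset ℕ) : ℝ := 𝔖 T * (x / Real.log x ^ (k + 1))

/-- the primes of `[x, 2 x)` near which some `(k + 1)`-pattern of primes does not have the right frequency -/
def Bad (k x : ℕ) (C δ lam : ℝ) : Set ℕ :=
  {p | x ≤ p ∧ p < 2 * x ∧ p.Prime ∧ ∃ T : Finset ℕ, T.card = k + 1 ∧ 0 ∈ T ∧
    (∀ t ∈ T, (t : ℝ) ≤ lam * Real.log x) ∧ AllPrime p T ∧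
    ¬ (δ * main k x T ≤ count x T ∧ count x T ≤ C * main k x T)}

/-- the primes of `[x, 2 x)` for which the pattern of the block of `k + 1` consecutive primes beginning with `p`
does not have the right frequency -/
def BadBlock (k x : ℕ) (C δ : ℝ) : Set ℕ :=
  {p | x ≤ p ∧ p < 2 * x ∧ p.Prime ∧ ∃ T : Finset ℕ, T.card = k + 1 ∧ 0 ∈ T ∧ Consecutive p T ∧
    ¬ (δ * main k x T ≤ countCons x T ∧ count x T ≤ C * main k x T)}

theorem result : (∀ T : Finset ℕ, HasProd (fun p : Nat.Primes => loc T p) (𝔖 T)) ∧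
    ∀ k : ℕ, ∃ C : ℝ, 0 < C ∧
    (∀ δ lam : ℝ, 0 < δ → 0 < lam → ∃ x₀ : ℕ, ∀ x : ℕ, x₀ ≤ x →
      ((Bad k x C δ lam).ncard : ℝ) ≤ C * δ * lam ^ k * (x / Real.log x)) ∧
    ∀ δ : ℝ, 0 < δ → ∃ x₀ : ℕ, ∀ x : ℕ, x₀ ≤ x →
      ((BadBlock k x C δ).ncard : ℝ) ≤ C * δ ^ (1 / ((k : ℝ) + 1)) * (x / Real.log x) := by
  classical
  refine ⟨fun T => Pool.Agent.H387R2.Uni.CT_hasProd T, fun k => ?_⟩
  obtain ⟨C, hC, h1, h2⟩ := Pool.Agent.X37.TY.both k
  refine ⟨C, hC, fun δ lam hδ hlam => ?_, fun δ hδ => ?_⟩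
  · obtain ⟨x₀, hx₀⟩ := h1 δ lam hδ hlam
    refine ⟨x₀, fun x hx => ?_⟩
    have hfin : (Bad k x C δ lam).Finite :=
      (Set.finite_lt_nat (2 * x)).subset fun p hp => hp.2.1
    rw [Set.ncard_eq_toFinset_card _ hfin]
    apply hx₀ x hx
    · intro p hp
      rw [Set.Finite.mem_toFinset] at hp
      rw [mem_filter, mem_Ico]
      exact ⟨⟨hp.1, hp.2.1⟩, hp.2.2.1⟩
    · intro p hp
      rw [Set.Finite.mem_toFinset] at hp
      obtain ⟨T, hT⟩ := hp.2.2.2
      exact ⟨T, hT⟩
  · obtain ⟨x₀, hx₀⟩ := h2 δ hδ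
    refine ⟨x₀, fun x hx => ?_⟩
    have hfin : (BadBlock k x C δ).Finite :=
      (Set.finite_lt_nat (2 * x)).subset fun p hp => hp.2.1
    rw [Set.ncard_eq_toFinset_card _ hfin]
    apply hx₀ x hx
    · intro p hp
      rw [Set.Finite.mem_toFinset] at hp
      rw [mem_filter, mem_Ico]
      exact ⟨⟨hp.1, hp.2.1⟩, hp.2.2.1⟩
    · intro p hp
      rw [Set.Finite.mem_toFinset] at hp
      obtain ⟨T, hT⟩ := hp.2.2.2
      exact ⟨T, hT⟩

end Pool.Agent.Results.MP_e87c7d_nt.AlmostAllPatterns
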