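import Pool.Agent.X28.NT.Om

/-!
# Almost all admissible tuples are prime infinitely often, or six of any eighteen linear forms are prime at once

The coloured Maynard-Tao theorem of the starting files has the constant `18 / 5`: of any `18` linear forms, with
constant terms as large as the variable, five can be made prime at the same time by bounded corrections of the constant
terms. We prove that at least one of the following holds.

(A) The constant improves: of any `18` linear forms with bounded slopes and constant terms far from each other, six are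
prime at the same time after corrections by at most `C`, for at least `N ^ (1 - η)` numbers `n ≤ N`, for all large `N`.

(B) For EVERY `T` almost all admissible `T`-tuples are prime infinitely often: in every cube `(w, w + H] ^ T` all the
admissible tuples `x` of `T` different numbers, with at most `K₀ H ^ (T - 1 / K₀)` exceptions, are such that
`n + x_1, …, n + x_T` are all prime for infinitely many `n`, more precisely for at least `N ^ (1 - η)` numbers `n ≤ N`
for arbitrarily large `N`, for every `η > 0`.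

This is the second part of the theorem. The first part is a statement at each scale `N` with other numbers in place of
`18` and `6`: if `18 j T < 5 κ T + 18` then, at every large scale, `j + 1` of any `κ` linear forms can be made prime at
the same time, or almost all admissible `T`-tuples of bounded diameter are patterns of primes at this scale. The cases
are `κ = 18, j = 5` for all `T`; `κ = 7, j = 2` for `T ≤ 17`; `κ = 3, j = 1` for `T ≤ 5`; `κ = 2, j = 1` for `T = 2`
(for instance: `3` places such that there are no two primes near two of them at the same time give almost all prime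
quintuples).

Proof: put a copy of `T` classes of bounded shifts at the place of each of the `κ` forms and apply the coloured theorem
(`Pool.Agent.Y827.GS.lamF0`, here with the range of the variable) to all the `κ T` classes; `j T` of them are hit. If no
`j + 1` of the forms can be made prime then these classes are in at most `j` copies, so that all the `T` classes of a
copy are hit. A theorem of Erdős on complete `T`-partite hypergraphs (proved here) turns this into the bound for the
number of the exceptional tuples.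
-/

set_option autoImplicit false

namespace Pool.Agent.Results.MP_e87c7d_nt.AlmostAllTuplesOrSixOfEighteen

open Filter

/-- Of any `κ` linear forms `u s * n + v s` with nonzero slopes at most `A`, constant terms at most `15 N / 16`, values
at least `N / 24` on `[N / 16, 9 N / 16]`, and constant terms at distance more than `C` for equal slopes, `j + 1` are
prime at the same time, after the addition of corrections at most `C`, for at least `N ^ (1 - η)` numbers `n ≤ N`. -/
def Simultaneous (κ j A C N : ℕ) (η : ℝ) : Prop :=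
  ∀ u v : Fin κ → ℤ, (∀ s, u s ≠ 0 ∧ |u s| ≤ A ∧ 16 * |v s| ≤ 15 * (N : ℤ)) →
    (∀ s, ∀ y : ℝ, (N : ℝ) / 16 ≤ y → y ≤ 9 * N / 16 → (N : ℝ) / 24 ≤ u s * y + v s) →
    (∀ s s', s ≠ s' → u s = u s' → (C : ℤ) < |v s - v s'|) →
    ∃ (S : Finset (Fin κ)) (e : Fin κ → ℕ), j + 1 ≤ S.card ∧ (∀ s, e s ≤ C) ∧
      (N : ℝ) ^ (1 - η) ≤ ({n : ℕ | 1 ≤ n ∧ n ≤ N ∧
        ∀ s ∈ S, (u s * n + (v s + e s)).toNat.Prime}.ncard : ℝ)

/-- the numbers `x i` do not occupy all the residue classes modulo any prime `p` -/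
def Admissible {T : ℕ} (x : Fin T → ℕ) : Prop :=
  ∀ p : ℕ, p.Prime → ∃ r : ℤ, ∀ i, ¬ ((p : ℤ) ∣ r + x i)

/-- the number of `n ≤ R` for which all `n + x i` are prime -/
noncomputable def count {T : ℕ} (x : Fin T → ℕ) (R : ℕ) : ℕ :=
  {n : ℕ | 1 ≤ n ∧ n ≤ R ∧ ∀ i, (n + x i).Prime}.ncard

theorem count_eq {T : ℕ} (x : Fin T → ℕ) (R : ℕ) [DecidablePred fun n : ℕ => ∀ i, (n + x i).Prime] :
    count x R = ((Finset.Icc 1 R).filter (fun n : ℕ => ∀ i, (n + x i).Prime)).card := by
  unfold count
  have h1 : {n : ℕ | 1 ≤ n ∧ n ≤ R ∧ ∀ i, (n + x i).Prime} =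
      ((Finset.Icc 1 R).filter (fun n : ℕ => ∀ i, (n + x i).Prime) : Finset ℕ) := by
    ext n
    rw [Finset.coe_filter, Set.mem_ofPred_eq, Set.mem_ofPred_eq, Finset.mem_Icc, and_assoc]
  rw [h1, Set.ncard_coe_finset]

theorem sim_of {κ j A C N : ℕ} {η : ℝ} (h : Pool.Agent.X28.NT.Better κ j A C N η) :
    Simultaneous κ j A C N η := by
  classical
  intro u v h1 h2 h3
  obtain ⟨S, e, hS, he, hc⟩ := h u v h1 h2 h3
  refine ⟨S, e, hS, he, ?_⟩
  have h4 : {n : ℕ | 1 ≤ n ∧ n ≤ N ∧ ∀ s ∈ S, (u s * n + (v s + e s)).toNat.Prime} =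
      ((Finset.Icc 1 N).filter (fun n : ℕ =>
        ∀ s ∈ S, (u s * n + (v s + e s)).toNat.Prime) : Finset ℕ) := by
    ext n
    rw [Finset.coe_filter, Set.mem_ofPred_eq, Set.mem_ofPred_eq, Finset.mem_Icc, and_assoc]
  rw [h4, Set.ncard_coe_finset]
  exact hc

theorem result :
    -- every scale
    (∀ κ j T : ℕ, 1 ≤ j → 1 ≤ T → 18 * (j * T) < 5 * (κ * T) + 18 → ∃ K₀ : ℕ, 1 ≤ K₀ ∧
      ∀ A L : ℕ, ∃ C : ℕ, ∀ η : ℝ, 0 < η → ∀ᶠ N : ℕ in atTop,
        Simultaneous κ j A C N η ∨
        ∀ w H : ℕ, 1 ≤ H → w + H ≤ L →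
          ({x : Fin T → ℕ | (∀ i, w < x i ∧ x i ≤ w + H) ∧ Function.Injective x ∧ Admissible x ∧
            ¬ (N : ℝ) ^ (1 - η) ≤ (count x ((A + 1) * N) : ℝ)}.ncard : ℝ) ≤
            K₀ * (H : ℝ) ^ ((T : ℝ) - 1 / (K₀ : ℝ))) ∧
    -- (A)
    ((∀ A : ℕ, ∃ C : ℕ, ∀ η : ℝ, 0 < η → ∀ᶠ N : ℕ in atTop, Simultaneous 18 5 A C N η) ∨
    -- (B)
    (∀ T : ℕ, 1 ≤ T → ∃ K₀ : ℕ, 1 ≤ K₀ ∧ ∀ w H : ℕ, 1 ≤ H →
      ({x : Fin T → ℕ | (∀ i, w < x i ∧ x i ≤ w + H) ∧ Function.Injective x ∧ Admissible x ∧
        ¬ (∀ η : ℝ, 0 < η → ∃ᶠ N : ℕ in atTop, (N : ℝ) ^ (1 - η) ≤ (count x N : ℝ))}.ncard : ℝ) ≤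
        K₀ * (H : ℝ) ^ ((T : ℝ) - 1 / (K₀ : ℝ)))) := by
  classical
  refine ⟨?_, ?_⟩
  · intro κ j T hj hT hκ
    obtain ⟨K₀, hK₀, H⟩ := Pool.Agent.X28.NT.mainD κ j T hj hT hκ
    refine ⟨K₀, hK₀, fun A L => ?_⟩
    obtain ⟨C, H⟩ := H A L
    refine ⟨C, fun η hη => ?_⟩
    filter_upwards [H η hη] with N hN
    rcases hN with hA | hB
    · exact Or.inl (sim_of hA)
    · right
      intro w W hW hwW
      have h4 : {x : Fin T → ℕ | (∀ i, w < x i ∧ x i ≤ w + W) ∧ Function.Injective x ∧
          Admissible x ∧ ¬ (N : ℝ) ^ (1 - η) ≤ (count x ((A + 1) * N) : ℝ)} =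
          ((Fintype.piFinset (fun _ : Fin T => Finset.Ioc w (w + W))).filter
            (fun x => Function.Injective x ∧ Pool.Agent.X28.NT.Adm x ∧
              ¬ Pool.Agent.X28.NT.TupR ((A + 1) * N) N η x) : Finset (Fin T → ℕ)) := by
        ext x
        rw [Finset.coe_filter, Set.mem_ofPred_eq, Set.mem_ofPred_eq, Fintype.mem_piFinset]
        simp only [Finset.mem_Ioc, Pool.Agent.X28.NT.TupR, count_eq]
        rfl
      rw [h4, Set.ncard_coe_finset]
      exact hB w W hW hwW
  · rcases Pool.Agent.X28.NT.limD with hA | hB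
    · left
      intro A
      obtain ⟨C, hC⟩ := hA A
      exact ⟨C, fun η hη => (hC η hη).mono fun N hN => sim_of hN⟩
    · right
      intro T hT
      obtain ⟨K₀, hK₀, H⟩ := hB T hT
      refine ⟨K₀, hK₀, fun w W hW => ?_⟩
      have h4 : {x : Fin T → ℕ | (∀ i, w < x i ∧ x i ≤ w + W) ∧ Function.Injective x ∧
          Admissible x ∧
          ¬ (∀ η : ℝ, 0 < η → ∃ᶠ N : ℕ in atTop, (N : ℝ) ^ (1 - η) ≤ (count x N : ℝ))} =
          ((Fintype.piFinset (fun _ : Fin T => Finset.Ioc w (w + W))).filter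
            (fun x => Function.Injective x ∧ Pool.Agent.X28.NT.Adm x ∧
              ¬ Pool.Agent.X28.NT.Oft x) : Finset (Fin T → ℕ)) := by
        ext x
        rw [Finset.coe_filter, Set.mem_ofPred_eq, Set.mem_ofPred_eq, Fintype.mem_piFinset]
        simp only [Finset.mem_Ioc, Pool.Agent.X28.NT.Oft, count_eq]
        rfl
      rw [h4, Set.ncard_coe_finset]
      exact H w W hW

end Pool.Agent.Results.MP_e87c7d_nt.AlmostAllTuplesOrSixOfEighteen
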