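import Pool.Agent.X26.GP.Tup
import Pool.Agent.Results.MP_e87c7d_nt.ProgressionsOfPrimeTuples

/-!
# From a prime tuple to its translates along all patterns

If an admissible set `T` of `r` integers (which may be as large as `x`) satisfies the lower bound of the
Hardy-Littlewood conjecture up to a constant, then so do the sets `T + {∑ f_i d_i : f ∈ F}` of `r |F|` integers, for a
positive proportion of the vectors `d` of `[1, D] ^ m`, `D` between a power of `log x` and `x`, for ALL sets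
`F ∋ 0` of vectors with entries less than `k` at the same time. Unconditionally this applies to more than the proportion
`4 ^ (1 - r) - ε` of the `r`-element subsets of an arbitrary set of `lam log x` integers, and to almost all sets `T`.

Method: the relative Szemerédi theorem of `Pool.Agent.X26.GP` in the sequence of the `n` with all `n + t` prime, with
the sieve majorant for `T`. The two families of sets `T` are from the starting file `ProgressionsOfPrimeTuples`.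
-/

set_option autoImplicit false

namespace Pool.Agent.Results.MP_e87c7d_nt.TuplesAlongPatterns

open Finset
open Pool.Agent.Results.MP_e87c7d_nt.ProgressionsOfPrimeTuples (Tuples P g Sing nu loc tup win P_sub P_R full
  sing_nat P_nat adm_of_sing average_low)

/-- The set of the integers `t + ∑ f_i d_i`, `t ∈ T`, `f ∈ F`. -/
def sumSet {m : ℕ} (T : Finset ℤ) (d : Fin m → ℕ) (F : Finset (Fin m → ℕ)) : Finset ℤ :=
  (T ×ˢ F).image (fun p : ℤ × (Fin m → ℕ) => p.1 + ((∑ i, p.2 i * d i : ℕ) : ℤ))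

/-- At least `c D ^ m` vectors `d` with entries in `[1, D]` have the following property. For all sets `F` of vectors
with entries in `{0, ..., k - 1}` which contain the vector `0`, the set `T' = T + {∑ f_i d_i : f ∈ F}` is an admissible
set of `|T| |F|` integers, and for at least `c 𝔖(T') (y₂ - y₁) / log ^ |T'| x` elements `n` of `S` all the
`n + ∑ f_i d_i`, `f ∈ F`, are elements of `S`. -/
def AllPatterns (m k : ℕ) (c : ℝ) (x : ℕ) (T : Finset ℤ) (y₁ y₂ D : ℕ) (S : Finset ℕ) : Prop :=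
  ∃ G : Finset (Fin m → ℕ), (∀ d ∈ G, ∀ i, 1 ≤ d i ∧ d i ≤ D) ∧ c * (D : ℝ) ^ m ≤ G.card ∧
    ∀ d ∈ G, ∀ F : Finset (Fin m → ℕ), (∀ f ∈ F, ∀ i, f i < k) → (fun _ => 0) ∈ F →
      (sumSet T d F).card = T.card * F.card ∧ (∀ q : ℕ, q.Prime → nu (sumSet T d F) q < q) ∧
      c * (((y₂ : ℝ) - y₁) * g (sumSet T d F) x) ≤
        ((S.filter (fun n => ∀ f ∈ F, n + ∑ i, f i * d i ∈ S)).card : ℝ)

theorem boot (m k r u : ℕ) (hu : 1 ≤ u) {θ δ : ℝ} (hθ : 0 < θ) (hδ : 0 < δ) : ∃ c : ℝ, 0 < c ∧ ∃ B x₀ : ℕ,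
    ∀ x : ℕ, x₀ ≤ x → ∀ T ∈ Tuples r x, ∀ y₁ y₂ D : ℕ, y₂ ≤ x → (x : ℝ) ^ θ ≤ (y₂ : ℝ) - y₁ →
    Real.log x ^ B ≤ D → (D : ℝ) ≤ (y₂ : ℝ) - y₁ → ∀ S : Finset ℕ, S ⊆ Ioc y₁ y₂ →
    (∀ n ∈ S, ProgressionsOfPrimeTuples.R u x T n) → δ * (((y₂ : ℝ) - y₁) * g T x) ≤ S.card →
    AllPatterns m k c x T y₁ y₂ D S := by
  obtain ⟨c, hc, B, x₀, h⟩ := Pool.Agent.X26.GP.tup m k r u hu hθ hδ
  refine ⟨c, hc, B, max x₀ 1, ?_⟩
  intro x hx T hT y₁ y₂ D hy2 hy hD hDy S hS hR hSc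
  obtain ⟨w1, w2, w3, w4, w5⟩ := win hθ ((le_max_right _ _).trans hx) hy2 hy
  obtain ⟨G, hG, hG1, hG2⟩ := h x ((le_max_left _ _).trans hx) T (tup hT) y₁ (y₂ - y₁) D w3 w4 hD
    (by rw [← w2] at hDy; exact_mod_cast hDy) S (by rwa [← w5]) hR (by rw [w2]; exact hSc)
  refine ⟨G, ?_, hG1, ?_⟩
  · intro d hd i
    have := hG hd
    rw [Fintype.mem_piFinset] at this
    exact mem_Icc.1 (this i)
  · intro d hd F hF hF0
    obtain ⟨g1, g2, g3⟩ := hG2 d hd F hF hF0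
    refine ⟨?_, g2, ?_⟩
    · rw [hT.1]
      exact g1
    · rw [w2] at g3
      exact g3

lemma sumSet_zero {m : ℕ} (T : Finset ℤ) (d : Fin m → ℕ) : sumSet T d {fun _ => 0} = T := by
  ext v
  unfold sumSet
  simp only [mem_image, mem_product, mem_singleton, Prod.exists]
  constructor
  · rintro ⟨t, f, ⟨ht, rfl⟩, rfl⟩
    simpa using ht
  · intro hv
    exact ⟨v, fun _ => 0, ⟨hv, rfl⟩, by simp⟩

lemma logs (B : ℕ) : ∃ x₀ : ℕ, ∀ x : ℕ, x₀ ≤ x → Real.log x ^ B ≤ x := by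
  have h := (Real.isLittleO_pow_log_id_atTop (n := B)).bound (show (0 : ℝ) < 1 by norm_num)
  have h1 := (tendsto_natCast_atTop_atTop (R := ℝ)).eventually (h.and (Filter.eventually_ge_atTop (1 : ℝ)))
  rw [Filter.eventually_atTop] at h1
  obtain ⟨x₀, hx₀⟩ := h1
  refine ⟨x₀, fun x hx => ?_⟩
  obtain ⟨h2, h3⟩ := hx₀ x hx
  rw [id, Real.norm_eq_abs, Real.norm_eq_abs, abs_of_nonneg (by linarith : (0 : ℝ) ≤ x), one_mul] at h2
  exact (le_abs_self _).trans h2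

theorem iff_of (m k r : ℕ) (hk : 1 ≤ k) (M : Set (ℕ × Finset ℤ)) (hM : ∀ q ∈ M, q.2 ∈ Tuples r q.1) :
    (∃ c : ℝ, 0 < c ∧ ∃ x₀ : ℕ, ∀ q ∈ M, x₀ ≤ q.1 → c * (q.1 * g q.2 q.1) ≤ (P q.2 0 q.1).card) ↔
      ∃ c : ℝ, 0 < c ∧ ∃ B x₀ : ℕ, ∀ q ∈ M, x₀ ≤ q.1 → ∀ D : ℕ, Real.log q.1 ^ B ≤ D → D ≤ q.1 →
        AllPatterns m k c q.1 q.2 0 q.1 D (P q.2 0 q.1) := by
  constructor
  · rintro ⟨c, hc, x₀, h⟩
    obtain ⟨c', hc', B, x₁, h'⟩ := boot m k r 1 le_rfl (θ := 1) one_pos hc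
    refine ⟨c', hc', B, max x₀ x₁, ?_⟩
    intro q hq hx D hD hDx
    refine h' q.1 ((le_max_right _ _).trans hx) q.2 (hM q hq) 0 q.1 D le_rfl (full _) hD (by simpa using hDx) _
      (P_sub _ _ _) (P_R _ _ _ _ _) ?_
    have := h q hq ((le_max_left _ _).trans hx)
    simpa using this
  · rintro ⟨c, hc, B, x₀, h⟩
    obtain ⟨x₁, h1⟩ := logs B
    refine ⟨c, hc, max (max x₀ x₁) 1, ?_⟩
    intro q hq hx
    obtain ⟨G, hG, hG1, hG2⟩ := h q hq (by omega) q.1 (h1 q.1 (by omega)) le_rfl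
    have hne : G.Nonempty := by
      rw [← card_pos]
      have h2 : 0 < c * (q.1 : ℝ) ^ m := by
        have : (0 : ℝ) < q.1 := by exact_mod_cast (by omega : 0 < q.1)
        positivity
      have h3 := h2.trans_le hG1
      exact_mod_cast h3
    obtain ⟨d, hd⟩ := hne
    obtain ⟨-, -, g3⟩ := hG2 d hd {fun _ => 0} (by
      intro f hf i
      rw [mem_singleton.1 hf]
      exact (show 0 < k by omega)) (mem_singleton_self _)
    rw [sumSet_zero] at g3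
    have h4 : ((P q.2 0 q.1).filter (fun n => ∀ f ∈ ({fun _ => 0} : Finset (Fin m → ℕ)),
        n + ∑ i, f i * d i ∈ P q.2 0 q.1)).card ≤ (P q.2 0 q.1).card := card_filter_le _ _
    have h5 : (((P q.2 0 q.1).filter (fun n => ∀ f ∈ ({fun _ => 0} : Finset (Fin m → ℕ)),
        n + ∑ i, f i * d i ∈ P q.2 0 q.1)).card : ℝ) ≤ (P q.2 0 q.1).card := by exact_mod_cast h4
    refine le_trans ?_ (g3.trans h5)
    simp

open Classical in
theorem quarter (r m k : ℕ) (hr : 2 ≤ r) (ε lam : ℝ) (hε : 0 < ε) (hlam : 0 < lam) :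
    ∃ c : ℝ, 0 < c ∧ ∃ B : ℕ, ∀ q : ℕ, 1 ≤ q → ∀ L : ℝ, ∃ x₀ : ℕ, ∀ x : ℕ, x₀ ≤ x →
      ∀ (a : ℤ) (A : Finset ℤ), (∀ b ∈ A, b ≡ a [ZMOD q]) → (∀ b ∈ A, 0 ≤ b ∧ (b : ℝ) ≤ Real.log x ^ L) →
      lam * ((Nat.totient q : ℝ) / q) * Real.log x ≤ A.card →
        ((1 / 4 : ℝ) ^ (r - 1) - ε) * ∑ T ∈ A.powersetCard r, Sing T ≤
          ∑ T ∈ (A.powersetCard r).filter (fun T => ∀ D : ℕ, Real.log x ^ B ≤ D → D ≤ x →
            AllPatterns m k c x T 0 x D (P T 0 x)), Sing T := by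
  classical
  obtain ⟨k', rfl⟩ : ∃ k', r = k' + 1 := ⟨r - 1, by omega⟩
  obtain ⟨κ, hκ, hq⟩ := Pool.Agent.H362R2.QT.fin_holds k' ε lam (by omega) hε hlam
  obtain ⟨c, hc, B₁, n₁, h1⟩ := boot m k (k' + 1) 1 le_rfl (θ := 1) one_pos hκ
  refine ⟨c, hc, B₁, ?_⟩
  intro q hq1 L
  obtain ⟨n₃, h3⟩ := hq q hq1 L
  have h4 := (isLittleO_log_rpow_rpow_atTop L one_pos).bound (show (0 : ℝ) < 1 by norm_num)
  have h5 := (tendsto_natCast_atTop_atTop (R := ℝ)).eventually (h4.and (Filter.eventually_ge_atTop (1 : ℝ)))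
  rw [Filter.eventually_atTop] at h5
  obtain ⟨n₄, h6⟩ := h5
  refine ⟨max n₁ (max (max n₃ n₄) 3), ?_⟩
  intro x hx a A hA hAL hcard
  obtain ⟨h7, h8⟩ := h6 x (by omega)
  have hlog : Real.log x ^ L ≤ x := by
    rw [Real.rpow_one, Real.norm_of_nonneg (by positivity), Real.norm_of_nonneg (by positivity), one_mul] at h7
    exact h7
  obtain ⟨A', hA'⟩ : ∃ A' : Finset ℕ, A = A'.map Nat.castEmbedding := by
    refine ⟨A.image Int.toNat, ?_⟩
    ext v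
    rw [mem_map]
    constructor
    · intro hv
      refine ⟨v.toNat, mem_image_of_mem _ hv, ?_⟩
      rw [Nat.castEmbedding_apply]
      exact Int.toNat_of_nonneg (hAL v hv).1
    · rintro ⟨w, hw, rfl⟩
      obtain ⟨b, hb, rfl⟩ := mem_image.1 hw
      rw [Nat.castEmbedding_apply, Int.toNat_of_nonneg (hAL b hb).1]
      exact hb
  have hmem : ∀ b ∈ A', ((b : ℕ) : ℤ) ∈ A := by
    intro b hb
    rw [hA', mem_map]
    exact ⟨b, hb, rfl⟩
  have hq0 : (q : ℤ) ≠ 0 := by exact_mod_cast (by omega : q ≠ 0)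
  have h9 := h3 x (by omega) ((a % q).toNat) A' (by
      intro b hb
      have h10 := hA b (hmem b hb)
      have h11 : ((b : ℕ) : ℤ) ≡ (((a % q).toNat : ℕ) : ℤ) [ZMOD q] := by
        rw [Int.toNat_of_nonneg (Int.emod_nonneg a hq0)]
        exact h10.trans (Int.mod_modEq a q).symm
      exact (Int.natCast_modEq_iff).1 h11) (by
      intro b hb
      exact_mod_cast (hAL b (hmem b hb)).2) (by
      rw [hA', card_map] at hcard
      exact hcard)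
  have hsum : ∀ f : Finset ℤ → ℝ, ∑ T ∈ A.powersetCard (k' + 1), f T =
      ∑ T ∈ A'.powersetCard (k' + 1), f (T.map Nat.castEmbedding) := by
    intro f
    rw [hA', powersetCard_map, sum_map]
    rfl
  rw [Finset.sum_filter, hsum, hsum, ← Finset.sum_filter]
  rw [show k' + 1 - 1 = k' by omega]
  simp_rw [sing_nat]
  refine h9.trans ?_
  rw [← Finset.sum_filter_ne_zero]
  apply Finset.sum_le_sum_of_subset_of_nonneg
  · intro T hT
    rw [mem_filter, mem_filter, mem_powersetCard] at hT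
    obtain ⟨⟨⟨t1, t2⟩, t3⟩, t4⟩ := hT
    rw [mem_filter, mem_powersetCard]
    refine ⟨⟨t1, t2⟩, ?_⟩
    have hTup : T.map Nat.castEmbedding ∈ Tuples (k' + 1) x := by
      refine ⟨by rw [card_map, t2], adm_of_sing (by rw [sing_nat]; exact t4), ?_⟩
      intro t ht
      rw [mem_map] at ht
      obtain ⟨v, hv, rfl⟩ := ht
      rw [Nat.castEmbedding_apply, Nat.abs_cast]
      have h10 := (hAL v (hmem v (t1 hv))).2
      have h11 : (v : ℝ) ≤ x := by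
        refine le_trans ?_ hlog
        exact_mod_cast h10
      exact_mod_cast h11
    have hden : κ * (((x : ℝ) - (0 : ℕ)) * g (T.map Nat.castEmbedding) x) ≤
        (P (T.map Nat.castEmbedding) 0 x).card := by
      rw [P_nat]
      refine le_trans (le_of_eq ?_) t3
      unfold g
      rw [sing_nat, card_map, t2]
      push_cast
      ring
    intro D hD hDx
    exact h1 x (by omega) _ hTup 0 x D le_rfl (full _) hD (by simpa using hDx) _ (P_sub _ _ _)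
        (P_R _ _ _ _ _) hden
  · intro T _ _
    exact Pool.Agent.H387R2.Uni.CT_nonneg T

theorem average (r m k : ℕ) (hr : 1 ≤ r) : ∃ c : ℝ, 0 < c ∧ ∃ B : ℕ, ∀ U : ℕ, ∃ x₀ : ℕ, ∀ x : ℕ, x₀ ≤ x →
    ∃ Ex : Finset (Finset ℤ), (Ex.card : ℝ) ≤ (x : ℝ) ^ (r - 1) / Real.log x ^ U ∧
      ∀ T ∈ Tuples r x, (0 : ℤ) ∈ T → (∀ t ∈ T, 0 ≤ t) → T ∉ Ex → ∀ D : ℕ, Real.log x ^ B ≤ D → D ≤ x →
        AllPatterns m k c x T 0 x D (P T 0 x) := by
  obtain ⟨s, rfl⟩ : ∃ s, r = s + 1 := ⟨r - 1, by omega⟩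
  obtain ⟨δ, hδ, h⟩ := average_low s
  obtain ⟨c, hc, B, x₁, h1⟩ := boot m k (s + 1) 1 le_rfl (θ := 1) one_pos hδ
  refine ⟨c, hc, B, fun U => ?_⟩
  obtain ⟨x₀, hx₀⟩ := h U
  refine ⟨max x₀ x₁, fun x hx => ?_⟩
  obtain ⟨Ex, hEx, hT⟩ := hx₀ x (by omega)
  refine ⟨Ex, hEx, ?_⟩
  intro T hTt h0 hpos hTE D hD hDx
  refine h1 x (by omega) T hTt 0 x D le_rfl (full _) hD (by simpa using hDx) _ (P_sub _ _ _) (P_R _ _ _ _ _) ?_
  have := hT T hTt h0 hpos hTE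
  simpa using this

open Classical in
/-- Definitions used (from the starting file `ProgressionsOfPrimeTuples`): `nu T q` is the number of the classes modulo
`q` occupied by `T`; `Sing T = 𝔖(T)`; `g T x = 𝔖(T) / log ^ |T| x`; `Tuples r x` is the set of the admissible sets of
`r` integers `|t| ≤ x`; `P T y₁ y₂` is the set of the `n` in `(y₁, y₂]` for which all `n + t`, `t ∈ T`, are primes (up to
the sign).

1. `𝔖(T)` converges.
2. For all `θ, δ > 0` there are `c > 0` and `B` such that for all large `x`, all `T` in `Tuples r x`, every window of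
  length at least `x ^ θ` below `x`, every `D` between `log ^ B x` and the length of the window and EVERY set `S` of
  elements of `P T y₁ y₂` with `|S| ≥ δ (y₂ - y₁) g T x`, there are at least `c D ^ m` vectors `d` as in `AllPatterns`.
3. For every family `M` of pairs `(x, T)`: the lower bound `≫ x g T x` for the number of the `n ≤ x` with all `n + t`
  prime holds on `M` if and only if it holds for all sets `T + {∑ f_i d_i : f ∈ F}`, for a positive proportion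
  of the `d` in all cubes of side between `log ^ B x` and `x`.
4. Let `r ≥ 2`. In every set `A ⊆ [0, log ^ L x]` of at least `lam (φ(q)/q) log x` integers of one class modulo `q`, the
  sets `T` of `r` elements which have this property have at least the proportion `4 ^ (1 - r) - ε` of `∑ 𝔖(T)`.
5. The property holds for all `T` in `Tuples r x` with `0 = min T` but at most `x ^ (r - 1) / log ^ U x`. -/
theorem result (r m k : ℕ) (hk : 1 ≤ k) :
    (∀ T : Finset ℤ, HasProd (fun q : Nat.Primes => loc T q) (Sing T)) ∧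
    (∀ θ δ : ℝ, 0 < θ → 0 < δ → ∃ c : ℝ, 0 < c ∧ ∃ B x₀ : ℕ, ∀ x : ℕ, x₀ ≤ x → ∀ T ∈ Tuples r x, ∀ y₁ y₂ D : ℕ,
      y₂ ≤ x → (x : ℝ) ^ θ ≤ (y₂ : ℝ) - y₁ → Real.log x ^ B ≤ D → (D : ℝ) ≤ (y₂ : ℝ) - y₁ →
      ∀ S : Finset ℕ, S ⊆ P T y₁ y₂ → δ * (((y₂ : ℝ) - y₁) * g T x) ≤ S.card →
      AllPatterns m k c x T y₁ y₂ D S) ∧
    (∀ M : Set (ℕ × Finset ℤ), (∀ q ∈ M, q.2 ∈ Tuples r q.1) →
      ((∃ c : ℝ, 0 < c ∧ ∃ x₀ : ℕ, ∀ q ∈ M, x₀ ≤ q.1 → c * (q.1 * g q.2 q.1) ≤ (P q.2 0 q.1).card) ↔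
        ∃ c : ℝ, 0 < c ∧ ∃ B x₀ : ℕ, ∀ q ∈ M, x₀ ≤ q.1 → ∀ D : ℕ, Real.log q.1 ^ B ≤ D → D ≤ q.1 →
          AllPatterns m k c q.1 q.2 0 q.1 D (P q.2 0 q.1))) ∧
    (2 ≤ r → ∀ ε lam : ℝ, 0 < ε → 0 < lam → ∃ c : ℝ, 0 < c ∧ ∃ B : ℕ, ∀ q : ℕ, 1 ≤ q → ∀ L : ℝ, ∃ x₀ : ℕ,
      ∀ x : ℕ, x₀ ≤ x → ∀ (a : ℤ) (A : Finset ℤ), (∀ b ∈ A, b ≡ a [ZMOD q]) →
      (∀ b ∈ A, 0 ≤ b ∧ (b : ℝ) ≤ Real.log x ^ L) → lam * ((Nat.totient q : ℝ) / q) * Real.log x ≤ A.card →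
        ((1 / 4 : ℝ) ^ (r - 1) - ε) * ∑ T ∈ A.powersetCard r, Sing T ≤
          ∑ T ∈ (A.powersetCard r).filter (fun T => ∀ D : ℕ, Real.log x ^ B ≤ D → D ≤ x →
            AllPatterns m k c x T 0 x D (P T 0 x)), Sing T) ∧
    (1 ≤ r → ∃ c : ℝ, 0 < c ∧ ∃ B : ℕ, ∀ U : ℕ, ∃ x₀ : ℕ, ∀ x : ℕ, x₀ ≤ x →
      ∃ Ex : Finset (Finset ℤ), (Ex.card : ℝ) ≤ (x : ℝ) ^ (r - 1) / Real.log x ^ U ∧
        ∀ T ∈ Tuples r x, (0 : ℤ) ∈ T → (∀ t ∈ T, 0 ≤ t) → T ∉ Ex → ∀ D : ℕ, Real.log x ^ B ≤ D → D ≤ x →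
          AllPatterns m k c x T 0 x D (P T 0 x)) := by
  refine ⟨fun T => Pool.Agent.Y843.AC.HL.Sing_hasProd T, ?_, fun M hM => iff_of m k r hk M hM,
    fun hr ε lam hε hlam => quarter r m k hr ε lam hε hlam, fun hr => average r m k hr⟩
  intro θ δ hθ hδ
  obtain ⟨c, hc, B, x₀, h⟩ := boot m k r 1 le_rfl hθ hδ
  refine ⟨c, hc, B, x₀, ?_⟩
  intro x hx T hT y₁ y₂ D hy2 hy hD hDy S hS hSc
  exact h x hx T hT y₁ y₂ D hy2 hy hD hDy S (hS.trans (P_sub _ _ _))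
    (fun n hn => P_R _ _ _ _ _ n (hS hn)) hSc

end Pool.Agent.Results.MP_e87c7d_nt.TuplesAlongPatterns
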